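import Pool.Agent.Helper95.PW.Stmts

/-!
# The Morawetz inequality for atoms

The momentum operator of the field `x / (|x|^2 + s^2)^(1/2)` of every electron is tested against
`(H - E) u`.
-/

set_option autoImplicit false

namespace Pool.Agent.Helper31.PWMOR

open MeasureTheory Filter Topology Pool.Agent.Helper95.PW

theorem sd {n : ℕ} {f : Cf n → ℝ} (hf : ContDiff ℝ (⊤ : ℕ∞) f) : Differentiable ℝ f :=
  hf.differentiable (by simp)

theorem dm {n : ℕ} (k : Fin n) (i : Fin 3) {f g : Cf n → ℝ} (hf : ContDiff ℝ (⊤ : ℕ∞) f)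
    (hg : ContDiff ℝ (⊤ : ℕ∞) g) (x : Cf n) :
    dv k i (fun x => f x * g x) x = dv k i f x * g x + f x * dv k i g x := by
  unfold dv
  rw [fderiv_fun_mul (sd hf x) (sd hg x)]
  simp
  ring

theorem da {n : ℕ} (k : Fin n) (i : Fin 3) {f g : Cf n → ℝ} (hf : ContDiff ℝ (⊤ : ℕ∞) f)
    (hg : ContDiff ℝ (⊤ : ℕ∞) g) (x : Cf n) :
    dv k i (fun x => f x + g x) x = dv k i f x + dv k i g x := by
  unfold dv
  rw [fderiv_fun_add (sd hf x) (sd hg x)]
  simp

theorem dc {n : ℕ} (k : Fin n) (i : Fin 3) (c : ℝ) (x : Cf n) :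
    dv k i (fun _ => c) x = 0 := by
  unfold dv
  simp

theorem dS {n : ℕ} (k : Fin n) (i : Fin 3) {ι : Type} (t : Finset ι) {f : ι → Cf n → ℝ}
    (hf : ∀ j, ContDiff ℝ (⊤ : ℕ∞) (f j)) (x : Cf n) :
    dv k i (fun x => ∑ j ∈ t, f j x) x = ∑ j ∈ t, dv k i (f j) x := by
  unfold dv
  rw [fderiv_fun_sum (fun j _ => sd (hf j) x)]
  simp

theorem csd {n : ℕ} (k : Fin n) (i : Fin 3) {f : Cf n → ℝ} (hf : ContDiff ℝ (⊤ : ℕ∞) f) :
    ContDiff ℝ (⊤ : ℕ∞) (dv k i f) := by
  unfold dv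
  exact (hf.fderiv_right (m := (⊤ : ℕ∞)) (by simp)).clm_apply contDiff_const

theorem hcd {n : ℕ} (k : Fin n) (i : Fin 3) {f : Cf n → ℝ} (hf : HasCompactSupport f) :
    HasCompactSupport (dv k i f) := by
  unfold dv
  exact hf.fderiv_apply ℝ _

theorem dsy {n : ℕ} (k l : Fin n) (i j : Fin 3) {f : Cf n → ℝ} (hf : ContDiff ℝ (⊤ : ℕ∞) f)
    (x : Cf n) : dv k i (dv l j f) x = dv l j (dv k i f) x := by
  have h1 : ∀ (a b : Cf n), fderiv ℝ (fun y => fderiv ℝ f y b) x a = fderiv ℝ (fderiv ℝ f) x a b := by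
    intro a b
    have hd : DifferentiableAt ℝ (fderiv ℝ f) x :=
      (hf.fderiv_right (m := (⊤ : ℕ∞)) (by simp)).differentiable (by simp) x
    rw [fderiv_clm_apply hd (differentiableAt_const b)]
    simp
  have h2 : IsSymmSndFDerivAt ℝ f x :=
    (hf.contDiffAt (x := x)).isSymmSndFDerivAt (by simp; exact WithTop.coe_le_coe.2 le_top)
  unfold dv
  rw [h1, h1]
  exact h2 _ _

theorem dco {n : ℕ} (k l : Fin n) (i j : Fin 3) (x : Cf n) :
    dv l i (fun x : Cf n => x k j) x = (Pi.single l (Pi.single i 1) : Cf n) k j := by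
  unfold dv
  have h : (fun x : Cf n => x k j) =
      ((ContinuousLinearMap.proj (R := ℝ) (φ := fun _ : Fin 3 => ℝ) j).comp
        (ContinuousLinearMap.proj (R := ℝ) (φ := fun _ : Fin n => R3) k) : Cf n →L[ℝ] ℝ) := by
    funext x; rfl
  rw [h, ContinuousLinearMap.fderiv]
  rfl

theorem cco {n : ℕ} (k : Fin n) (j : Fin 3) : ContDiff ℝ (⊤ : ℕ∞) (fun x : Cf n => x k j) := by
  fun_prop

/-- one over square root -/
theorem rho {n : ℕ} {g : Cf n → ℝ} (hg : ContDiff ℝ (⊤ : ℕ∞) g) (hp : ∀ x, 0 < g x) :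
    ContDiff ℝ (⊤ : ℕ∞) (fun x => (Real.sqrt (g x))⁻¹) := by
  refine ContDiff.inv (hg.sqrt (fun x => (hp x).ne')) (fun x => (Real.sqrt_pos.2 (hp x)).ne')

theorem rq (t : ℝ) (ht : 0 < t) : (Real.sqrt t)⁻¹ * (Real.sqrt t)⁻¹ * t = 1 := by
  have h := Real.mul_self_sqrt ht.le
  have h2 := Real.sqrt_pos.2 ht
  field_simp
  nlinarith

theorem drho {n : ℕ} (k : Fin n) (i : Fin 3) {g : Cf n → ℝ} (hg : ContDiff ℝ (⊤ : ℕ∞) g)
    (hp : ∀ x, 0 < g x) (x : Cf n) :
    dv k i (fun x => (Real.sqrt (g x))⁻¹) x = -(1 / 2) * (Real.sqrt (g x))⁻¹ ^ 3 * dv k i g x := by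
  have hr := rho hg hp
  have h1 := dm k i (hr.mul hr) hg x
  have h2 := dm k i hr hr x
  have h3 : (fun x => (Real.sqrt (g x))⁻¹ * (Real.sqrt (g x))⁻¹ * g x) = fun _ => 1 := by
    funext y; exact rq _ (hp y)
  have h4 : dv k i (fun x => (Real.sqrt (g x))⁻¹ * (Real.sqrt (g x))⁻¹ * g x) x = 0 := by
    rw [h3]; exact dc k i 1 x
  have h5 := rq _ (hp x)
  rw [h4, h2] at h1
  generalize (Real.sqrt (g x))⁻¹ = r at *
  generalize dv k i (fun x => (Real.sqrt (g x))⁻¹) x = d at *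
  linear_combination (-(1/2) * r) * h1 - d * h5

/-- one over square root -/
noncomputable def rh {n : ℕ} (s : ℝ) (k : Fin n) (x : Cf n) : ℝ :=
  (Real.sqrt (x k 0 ^ 2 + x k 1 ^ 2 + x k 2 ^ 2 + s ^ 2))⁻¹

/-- one over square root, pair -/
noncomputable def rp {n : ℕ} (s : ℝ) (k l : Fin n) (x : Cf n) : ℝ :=
  (Real.sqrt ((x k 0 - x l 0) ^ 2 + (x k 1 - x l 1) ^ 2 + (x k 2 - x l 2) ^ 2 + s ^ 2))⁻¹

theorem gh_c {n : ℕ} (s : ℝ) (k : Fin n) :
    ContDiff ℝ (⊤ : ℕ∞) (fun x : Cf n => x k 0 ^ 2 + x k 1 ^ 2 + x k 2 ^ 2 + s ^ 2) := by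
  fun_prop

theorem gp_c {n : ℕ} (s : ℝ) (k l : Fin n) :
    ContDiff ℝ (⊤ : ℕ∞) (fun x : Cf n =>
      (x k 0 - x l 0) ^ 2 + (x k 1 - x l 1) ^ 2 + (x k 2 - x l 2) ^ 2 + s ^ 2) := by
  fun_prop

theorem gh_p {n : ℕ} {s : ℝ} (hs : 0 < s) (k : Fin n) (x : Cf n) :
    0 < x k 0 ^ 2 + x k 1 ^ 2 + x k 2 ^ 2 + s ^ 2 := by positivity

theorem gp_p {n : ℕ} {s : ℝ} (hs : 0 < s) (k l : Fin n) (x : Cf n) :
    0 < (x k 0 - x l 0) ^ 2 + (x k 1 - x l 1) ^ 2 + (x k 2 - x l 2) ^ 2 + s ^ 2 := by positivity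

theorem rh_c {n : ℕ} {s : ℝ} (hs : 0 < s) (k : Fin n) : ContDiff ℝ (⊤ : ℕ∞) (rh (n := n) s k) :=
  rho (gh_c s k) (gh_p hs k)

theorem rp_c {n : ℕ} {s : ℝ} (hs : 0 < s) (k l : Fin n) :
    ContDiff ℝ (⊤ : ℕ∞) (rp (n := n) s k l) :=
  rho (gp_c s k l) (gp_p hs k l)

theorem rh_p {n : ℕ} {s : ℝ} (hs : 0 < s) (k : Fin n) (x : Cf n) : 0 < rh s k x :=
  inv_pos.2 (Real.sqrt_pos.2 (gh_p hs k x))

theorem rp_p {n : ℕ} {s : ℝ} (hs : 0 < s) (k l : Fin n) (x : Cf n) : 0 < rp s k l x :=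
  inv_pos.2 (Real.sqrt_pos.2 (gp_p hs k l x))

theorem rh_q {n : ℕ} {s : ℝ} (hs : 0 < s) (k : Fin n) (x : Cf n) :
    rh s k x ^ 2 * (x k 0 ^ 2 + x k 1 ^ 2 + x k 2 ^ 2 + s ^ 2) = 1 := by
  have h := rq _ (gh_p hs k x)
  unfold rh
  rw [pow_two]
  exact h

theorem rp_q {n : ℕ} {s : ℝ} (hs : 0 < s) (k l : Fin n) (x : Cf n) :
    rp s k l x ^ 2 *
      ((x k 0 - x l 0) ^ 2 + (x k 1 - x l 1) ^ 2 + (x k 2 - x l 2) ^ 2 + s ^ 2) = 1 := by
  have h := rq _ (gp_p hs k l x)
  unfold rp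
  rw [pow_two]
  exact h

theorem dsq {n : ℕ} (k : Fin n) (i : Fin 3) {f : Cf n → ℝ} (hf : ContDiff ℝ (⊤ : ℕ∞) f)
    (x : Cf n) : dv k i (fun x => f x ^ 2) x = 2 * (f x * dv k i f x) := by
  have h := dm k i hf hf x
  simp only [pow_two]
  rw [h]; ring

theorem dgh {n : ℕ} (s : ℝ) (k l : Fin n) (i : Fin 3) (x : Cf n) :
    dv l i (fun x : Cf n => x k 0 ^ 2 + x k 1 ^ 2 + x k 2 ^ 2 + s ^ 2) x =
      if l = k then 2 * x k i else 0 := by
  have c0 := (cco (n := n) k 0).pow 2
  have c1 := (cco (n := n) k 1).pow 2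
  have c2 := (cco (n := n) k 2).pow 2
  have e1 := da l i ((c0.add c1).add c2) (contDiff_const (c := s ^ 2)) x
  have e2 := da l i (c0.add c1) c2 x
  have e3 := da l i c0 c1 x
  rw [e1, e2, e3, dc, dsq l i (cco k 0), dsq l i (cco k 1), dsq l i (cco k 2), dco, dco, dco]
  by_cases h : l = k
  · subst h
    fin_cases i <;> simp
  · have h' : k ≠ l := fun h2 => h h2.symm
    simp [h, Pi.single_apply, h']

theorem dgp {n : ℕ} (s : ℝ) (k l m : Fin n) (i : Fin 3) (x : Cf n) :
    dv m i (fun x : Cf n =>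
      (x k 0 - x l 0) ^ 2 + (x k 1 - x l 1) ^ 2 + (x k 2 - x l 2) ^ 2 + s ^ 2) x =
      2 * (x k i - x l i) * ((if m = k then 1 else 0) - (if m = l then 1 else 0)) := by
  have c : ∀ j, ContDiff ℝ (⊤ : ℕ∞) (fun x : Cf n => x k j - x l j) :=
    fun j => (cco k j).sub (cco l j)
  have c0 := (c 0).pow 2
  have c1 := (c 1).pow 2
  have c2 := (c 2).pow 2
  have e1 := da m i ((c0.add c1).add c2) (contDiff_const (c := s ^ 2)) x
  have e2 := da m i (c0.add c1) c2 x
  have e3 := da m i c0 c1 x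
  have e4 : ∀ j, dv m i (fun x : Cf n => x k j - x l j) x =
      (Pi.single m (Pi.single i 1) : Cf n) k j - (Pi.single m (Pi.single i 1) : Cf n) l j := by
    intro j
    have h := dco k m i j x
    have h' := dco l m i j x
    rw [← h, ← h']
    unfold dv
    rw [fderiv_fun_sub (sd (cco k j) x) (sd (cco l j) x)]
    simp
  rw [e1, e2, e3, dc, dsq m i (c 0), dsq m i (c 1), dsq m i (c 2), e4, e4, e4]
  by_cases h : m = k
  · subst h
    by_cases h2 : m = l
    · subst h2
      simp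
    · have h' : l ≠ m := fun h3 => h2 h3.symm
      fin_cases i <;> simp [h', h2] <;> ring
  · have h' : k ≠ m := fun h2 => h h2.symm
    by_cases h2 : m = l
    · subst h2
      fin_cases i <;> simp [h', h] <;> ring
    · have h3 : l ≠ m := fun h3 => h2 h3.symm
      simp [h, h2, h', h3]

theorem drh {n : ℕ} {s : ℝ} (hs : 0 < s) (k l : Fin n) (i : Fin 3) (x : Cf n) :
    dv l i (rh s k) x = if l = k then -(x k i * rh s k x ^ 3) else 0 := by
  have h := drho l i (gh_c s k) (gh_p hs k) x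
  rw [dgh] at h
  have h2 : dv l i (rh s k) x = dv l i (fun x : Cf n =>
    (Real.sqrt (x k 0 ^ 2 + x k 1 ^ 2 + x k 2 ^ 2 + s ^ 2))⁻¹) x := rfl
  rw [h2, h]
  unfold rh
  split_ifs <;> ring

theorem drp {n : ℕ} {s : ℝ} (hs : 0 < s) (k l m : Fin n) (i : Fin 3) (x : Cf n) :
    dv m i (rp s k l) x = -((x k i - x l i) * rp s k l x ^ 3 *
      ((if m = k then 1 else 0) - (if m = l then 1 else 0))) := by
  have h := drho m i (gp_c s k l) (gp_p hs k l) x
  rw [dgp] at h
  have h2 : dv m i (rp s k l) x = dv m i (fun x : Cf n =>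
    (Real.sqrt ((x k 0 - x l 0) ^ 2 + (x k 1 - x l 1) ^ 2 + (x k 2 - x l 2) ^ 2 + s ^ 2))⁻¹) x :=
    rfl
  rw [h2, h]
  unfold rp
  ring

/-- the field -/
noncomputable def aa {n : ℕ} (s : ℝ) (k : Fin n) (i : Fin 3) (x : Cf n) : ℝ := x k i * rh s k x

/-- the divergence -/
noncomputable def bb {n : ℕ} (s : ℝ) (k : Fin n) (x : Cf n) : ℝ :=
  2 * rh s k x + s ^ 2 * rh s k x ^ 3

/-- gradient of the divergence -/
noncomputable def cc {n : ℕ} (s : ℝ) (k : Fin n) (i : Fin 3) (x : Cf n) : ℝ :=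
  x k i * (-2 * rh s k x ^ 3 - 3 * s ^ 2 * rh s k x ^ 5)

/-- the operator -/
noncomputable def PP {n : ℕ} (s : ℝ) (v : Cf n → ℝ) (x : Cf n) : ℝ :=
  ∑ k, ((∑ i, aa s k i x * dv k i v x) + bb s k x / 2 * v x)

theorem dpow {n : ℕ} (k : Fin n) (i : Fin 3) {f : Cf n → ℝ} (hf : ContDiff ℝ (⊤ : ℕ∞) f) (N : ℕ)
    (x : Cf n) : dv k i (fun x => f x ^ (N + 1)) x = (N + 1) * (f x ^ N * dv k i f x) := by
  induction N with
  | zero => simp
  | succ N ih =>
    have h := dm k i (hf.pow (N + 1)) hf x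
    have e : (fun x => f x ^ (N + 1 + 1)) = fun x => f x ^ (N + 1) * f x := by
      funext y; ring
    rw [e, h, ih]
    push_cast
    ring

theorem aa_c {n : ℕ} {s : ℝ} (hs : 0 < s) (k : Fin n) (i : Fin 3) :
    ContDiff ℝ (⊤ : ℕ∞) (aa (n := n) s k i) := (cco k i).mul (rh_c hs k)

theorem bb_c {n : ℕ} {s : ℝ} (hs : 0 < s) (k : Fin n) : ContDiff ℝ (⊤ : ℕ∞) (bb (n := n) s k) :=
  (contDiff_const.mul (rh_c hs k)).add (contDiff_const.mul ((rh_c hs k).pow 3))

theorem cc_c {n : ℕ} {s : ℝ} (hs : 0 < s) (k : Fin n) (i : Fin 3) :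
    ContDiff ℝ (⊤ : ℕ∞) (cc (n := n) s k i) :=
  (cco k i).mul ((contDiff_const.mul ((rh_c hs k).pow 3)).sub
    (contDiff_const.mul ((rh_c hs k).pow 5)))

theorem daa {n : ℕ} {s : ℝ} (hs : 0 < s) (k l : Fin n) (i j : Fin 3) (x : Cf n) :
    dv l j (aa s k i) x = if l = k then (if j = i then rh s k x else 0) -
      x k i * x k j * rh s k x ^ 3 else 0 := by
  have h := dm l j (cco k i) (rh_c hs k) x
  have h2 : dv l j (aa s k i) x = dv l j (fun x => x k i * rh s k x) x := rfl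
  rw [h2, h, drh hs, dco]
  by_cases hk : l = k
  · subst hk
    by_cases hj : j = i
    · subst hj
      simp
      ring
    · have hj' : i ≠ j := fun h => hj h.symm
      simp [hj, hj']
      ring
  · have h' : k ≠ l := fun h2 => hk h2.symm
    simp [hk, h']

theorem dbb {n : ℕ} {s : ℝ} (hs : 0 < s) (k l : Fin n) (j : Fin 3) (x : Cf n) :
    dv l j (bb s k) x = if l = k then cc s k j x else 0 := by
  have h := da l j (contDiff_const (c := (2 : ℝ)).mul (rh_c hs k))
    (contDiff_const (c := s ^ 2).mul ((rh_c hs k).pow 3)) x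
  have h1 := dm l j (contDiff_const (c := (2 : ℝ))) (rh_c hs k) x
  have h3 := dm l j (contDiff_const (c := s ^ 2)) ((rh_c hs k).pow 3) x
  have h4 := dpow l j (rh_c hs k) 2 x
  have h2 : dv l j (bb s k) x = dv l j (fun x => 2 * rh s k x + s ^ 2 * rh s k x ^ 3) x := rfl
  rw [h2, h, h1, h3, h4, drh hs, dc, dc]
  unfold cc
  split_ifs
  · push_cast; ring
  · ring

theorem dcc {n : ℕ} {s : ℝ} (hs : 0 < s) (k : Fin n) (j : Fin 3) (x : Cf n) :
    dv k j (cc s k j) x = (-2 * rh s k x ^ 3 - 3 * s ^ 2 * rh s k x ^ 5) +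
      x k j ^ 2 * (6 * rh s k x ^ 5 + 15 * s ^ 2 * rh s k x ^ 7) := by
  have u1 := contDiff_const (c := (-2 : ℝ)) |>.mul ((rh_c (n := n) hs k).pow 3)
  have u2 := contDiff_const (c := (-3 * s ^ 2 : ℝ)) |>.mul ((rh_c (n := n) hs k).pow 5)
  have e : cc s k j = fun x => x k j * (-2 * rh s k x ^ 3 + (-3 * s ^ 2) * rh s k x ^ 5) := by
    funext y; unfold cc; ring
  have h0 := dm k j (cco k j) (u1.add u2) x
  have h1 := da k j u1 u2 x
  have h2 := dm k j (contDiff_const (c := (-2 : ℝ))) ((rh_c hs k).pow 3) x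
  have h3 := dm k j (contDiff_const (c := (-3 * s ^ 2 : ℝ))) ((rh_c hs k).pow 5) x
  have h4 := dpow k j (rh_c hs k) 2 x
  have h5 := dpow k j (rh_c hs k) 4 x
  rw [e, h0, h1, h2, h3, h4, h5, drh hs, dc, dc, dco]
  simp
  ring

theorem icc {n : ℕ} {f : Cf n → ℝ} (hf : ContDiff ℝ (⊤ : ℕ∞) f) (hc : HasCompactSupport f) :
    Integrable f := hf.continuous.integrable_of_hasCompactSupport hc

theorem PP_c {n : ℕ} {s : ℝ} (hs : 0 < s) {v : Cf n → ℝ} (hv : ContDiff ℝ (⊤ : ℕ∞) v) :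
    ContDiff ℝ (⊤ : ℕ∞) (PP s v) := by
  unfold PP
  refine ContDiff.sum (fun k _ => ?_)
  refine ContDiff.add (ContDiff.sum (fun i _ => (aa_c hs k i).mul (csd k i hv))) ?_
  exact ((bb_c hs k).div_const 2).mul hv

theorem PP_s {n : ℕ} {s : ℝ} {v : Cf n → ℝ} (hv : HasCompactSupport v) :
    HasCompactSupport (PP s v) := by
  refine HasCompactSupport.intro hv (fun x hx => ?_)
  have h1 : v x = 0 := image_eq_zero_of_notMem_tsupport hx
  have h2 : fderiv ℝ v x = 0 := fderiv_of_notMem_tsupport ℝ hx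
  unfold PP dv
  simp [h1, h2]

theorem L0 (ibp : ST_IBP) {n : ℕ} (k : Fin n) (i : Fin 3) {v w : Cf n → ℝ}
    (hv : ContDiff ℝ (⊤ : ℕ∞) v) (hc : HasCompactSupport v) (hw : ContDiff ℝ (⊤ : ℕ∞) w) :
    Integrable (fun x => dv k i v x * w x + v x * dv k i w x) ∧
    ∫ x, (dv k i v x * w x + v x * dv k i w x) = 0 := by
  have i1 : Integrable (fun x => dv k i v x * w x) :=
    icc ((csd k i hv).mul hw) ((hcd k i hc).mul_right)
  have i2 : Integrable (fun x => v x * dv k i w x) :=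
    icc (hv.mul (csd k i hw)) (hc.mul_right)
  refine ⟨i1.add i2, ?_⟩
  rw [integral_add i1 i2, ibp n k i v w hv hc hw]
  ring

theorem s0 {n : ℕ} {F : Fin n → Fin 3 → Cf n → ℝ}
    (h : ∀ k i, Integrable (F k i) ∧ ∫ x, F k i x = 0) :
    Integrable (fun x => ∑ k, ∑ i, F k i x) ∧ ∫ x, ∑ k, ∑ i, F k i x = 0 := by
  refine ⟨integrable_finsetSum _ (fun k _ => integrable_finsetSum _ (fun i _ => (h k i).1)), ?_⟩
  rw [integral_finsetSum _ (fun k _ => integrable_finsetSum _ (fun i _ => (h k i).1))]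
  refine Finset.sum_eq_zero (fun k _ => ?_)
  rw [integral_finsetSum _ (fun i _ => (h k i).1)]
  exact Finset.sum_eq_zero (fun i _ => (h k i).2)

theorem L1 (ibp : ST_IBP) {n : ℕ} {s : ℝ} (hs : 0 < s) {v W : Cf n → ℝ}
    (hv : ContDiff ℝ (⊤ : ℕ∞) v) (hc : HasCompactSupport v) (hW : ContDiff ℝ (⊤ : ℕ∞) W) :
    Integrable (fun x => 2 * (W x * (v x * PP s v x)) +
      v x ^ 2 * ∑ k, ∑ i, aa s k i x * dv k i W x) ∧
    ∫ x, (2 * (W x * (v x * PP s v x)) + v x ^ 2 * ∑ k, ∑ i, aa s k i x * dv k i W x) = 0 := by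
  have hv2 : HasCompactSupport (fun x => v x ^ 2) := by
    have := hc.mul_right (f' := v)
    refine HasCompactSupport.intro hc (fun x hx => ?_)
    have h1 : v x = 0 := image_eq_zero_of_notMem_tsupport hx
    simp [h1]
  have h := s0 (n := n) (fun k i => L0 ibp k i (hv.pow 2) hv2 (hW.mul (aa_c hs k i)))
  have e : (fun x => 2 * (W x * (v x * PP s v x)) +
      v x ^ 2 * ∑ k, ∑ i, aa s k i x * dv k i W x) = fun x => ∑ k, ∑ i,
      (dv k i (fun x => v x ^ 2) x * (W x * aa s k i x) +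
        v x ^ 2 * dv k i (fun x => W x * aa s k i x) x) := by
    funext x
    unfold PP
    rw [Finset.mul_sum, Finset.mul_sum, Finset.mul_sum, Finset.mul_sum, ← Finset.sum_add_distrib]
    refine Finset.sum_congr rfl (fun k _ => ?_)
    simp only [Fin.sum_univ_three]
    simp only [dsq k _ hv, dm k _ hW (aa_c hs k _), daa hs]
    have hq := rh_q hs k x
    unfold aa bb
    simp only [if_true]
    linear_combination (W x * v x ^ 2 * rh s k x) * hq
  rw [e]
  exact h

theorem dPP {n : ℕ} {s : ℝ} (hs : 0 < s) {v : Cf n → ℝ} (hv : ContDiff ℝ (⊤ : ℕ∞) v) (l : Fin n)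
    (j : Fin 3) (x : Cf n) : dv l j (PP s v) x = PP s (dv l j v) x +
      ((∑ i, dv l j (aa s l i) x * dv l i v x) + cc s l j x / 2 * v x) := by
  have e1 : ((∑ i, dv l j (aa s l i) x * dv l i v x) + cc s l j x / 2 * v x) =
      ∑ k, ((∑ i, dv l j (aa s k i) x * dv k i v x) + dv l j (bb s k) x / 2 * v x) := by
    rw [Finset.sum_eq_single l]
    · rw [dbb hs]; simp
    · intro k _ hk
      have hk' : l ≠ k := fun h => hk h.symm
      rw [dbb hs]
      simp [daa hs, hk']
    · intro h; exact absurd (Finset.mem_univ l) h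
  rw [e1]
  have e2 : dv l j (PP s v) x = ∑ k, dv l j
      (fun x => (∑ i, aa s k i x * dv k i v x) + bb s k x / 2 * v x) x := by
    refine dS l j Finset.univ (fun k => ?_) x
    exact (ContDiff.sum (fun i _ => (aa_c hs k i).mul (csd k i hv))).add
      (((bb_c hs k).div_const 2).mul hv)
  rw [e2]
  unfold PP
  rw [← Finset.sum_add_distrib]
  refine Finset.sum_congr rfl (fun k _ => ?_)
  rw [da l j (ContDiff.sum (fun i _ => (aa_c hs k i).mul (csd k i hv)))
    (((bb_c hs k).div_const 2).mul hv), dS l j Finset.univ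
    (fun i => (aa_c hs k i).mul (csd k i hv)), dm l j ((bb_c hs k).div_const 2) hv]
  have e3 : dv l j (fun x => bb s k x / 2) x = dv l j (bb s k) x / 2 := by
    have h := dm l j (bb_c hs k) (contDiff_const (c := (1 / 2 : ℝ))) x
    rw [dc] at h
    have e : (fun x => bb s k x / 2) = fun x => bb s k x * (1 / 2) := by funext y; ring
    rw [e, h]; ring
  rw [e3]
  simp only [dm l j (aa_c hs k _) (csd k _ hv), Fin.sum_univ_three, dsy l k j _ hv]
  ring

theorem mo {n : ℕ} {s : ℝ} (hs : 0 < s) (k : Fin n) (x : Cf n) :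
    mor s (x k) = 15 / 2 * s ^ 4 * rh s k x ^ 7 := by
  unfold mor rh nr
  have h : 0 ≤ x k 0 ^ 2 + x k 1 ^ 2 + x k 2 ^ 2 := by positivity
  have e : (x k 0 ^ 2 + x k 1 ^ 2 + x k 2 ^ 2 + s ^ 2) ^ (7 / 2 : ℝ) =
      Real.sqrt (x k 0 ^ 2 + x k 1 ^ 2 + x k 2 ^ 2 + s ^ 2) ^ 7 := by
    rw [Real.sqrt_eq_rpow, ← Real.rpow_natCast _ 7, ← Real.rpow_mul (by positivity)]
    norm_num
  rw [Real.sq_sqrt h, e, inv_pow, div_eq_mul_inv]

/-- quadratic form of the second derivatives -/
noncomputable def QQ {n : ℕ} (s : ℝ) (v : Cf n → ℝ) (x : Cf n) : ℝ :=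
  ∑ l, ∑ j, dv l j v x * ∑ i, dv l j (aa s l i) x * dv l i v x

theorem QQ_p {n : ℕ} {s : ℝ} (hs : 0 < s) (v : Cf n → ℝ) (x : Cf n) : 0 ≤ QQ s v x := by
  unfold QQ
  refine Finset.sum_nonneg (fun l _ => ?_)
  have hq := rh_q hs l x
  have hr := rh_p hs l x
  have e : ∑ j, dv l j v x * ∑ i, dv l j (aa s l i) x * dv l i v x = rh s l x ^ 3 *
      (s ^ 2 * (dv l 0 v x ^ 2 + dv l 1 v x ^ 2 + dv l 2 v x ^ 2) +
        (x l 0 * dv l 1 v x - x l 1 * dv l 0 v x) ^ 2 +
        (x l 0 * dv l 2 v x - x l 2 * dv l 0 v x) ^ 2 +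
        (x l 1 * dv l 2 v x - x l 2 * dv l 1 v x) ^ 2) := by
    simp only [Fin.sum_univ_three, daa hs]
    simp
    linear_combination (-rh s l x * (dv l 0 v x ^ 2 + dv l 1 v x ^ 2 + dv l 2 v x ^ 2)) * hq
  rw [e]
  positivity

theorem KN (ibp : ST_IBP) {n : ℕ} {s : ℝ} (hs : 0 < s) {v : Cf n → ℝ}
    (hv : ContDiff ℝ (⊤ : ℕ∞) v) (hc : HasCompactSupport v) :
    Integrable (fun x => (∑ l, ∑ j, dv l j (dv l j v) x) * PP s v x + QQ s v x +
      1 / 2 * ((∑ k, mor s (x k)) * v x ^ 2)) ∧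
    ∫ x, ((∑ l, ∑ j, dv l j (dv l j v) x) * PP s v x + QQ s v x +
      1 / 2 * ((∑ k, mor s (x k)) * v x ^ 2)) = 0 := by
  have hv2 : HasCompactSupport (fun x => v x ^ 2) := by
    refine HasCompactSupport.intro hc (fun x hx => ?_)
    have h1 : v x = 0 := image_eq_zero_of_notMem_tsupport hx
    simp [h1]
  have h := s0 (n := n) (F := fun l j x =>
    (dv l j (dv l j v) x * PP s v x + dv l j v x * dv l j (PP s v) x) -
    1 / 2 * (2 * ((fun _ => (1 : ℝ)) x * (dv l j v x * PP s (dv l j v) x)) +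
      dv l j v x ^ 2 * ∑ k, ∑ i, aa s k i x * dv k i (fun _ => (1 : ℝ)) x) -
    1 / 4 * (dv l j (fun x => v x ^ 2) x * cc s l j x + v x ^ 2 * dv l j (cc s l j) x))
    (fun l j => by
      have a1 := L0 ibp l j (csd l j hv) (hcd l j hc) (PP_c hs hv)
      have a2 := L1 ibp hs (csd l j hv) (hcd l j hc) (contDiff_const (c := (1 : ℝ)))
      have a3 := L0 ibp l j (hv.pow 2) hv2 (cc_c hs l j)
      have b1 := a1.1.sub (a2.1.const_mul (1 / 2))
      have b2 := b1.sub (a3.1.const_mul (1 / 4))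
      refine ⟨b2, ?_⟩
      have c1 := integral_sub b1 (a3.1.const_mul (1 / 4))
      have c2 := integral_sub a1.1 (a2.1.const_mul (1 / 2))
      rw [integral_const_mul] at c1 c2
      simp only [Pi.sub_apply] at c1 c2
      rw [c1, c2, a1.2, a2.2, a3.2]
      ring)
  have e : (fun x => (∑ l, ∑ j, dv l j (dv l j v) x) * PP s v x + QQ s v x +
      1 / 2 * ((∑ k, mor s (x k)) * v x ^ 2)) = fun x => ∑ l, ∑ j,
      ((dv l j (dv l j v) x * PP s v x + dv l j v x * dv l j (PP s v) x) -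
    1 / 2 * (2 * ((fun _ => (1 : ℝ)) x * (dv l j v x * PP s (dv l j v) x)) +
      dv l j v x ^ 2 * ∑ k, ∑ i, aa s k i x * dv k i (fun _ => (1 : ℝ)) x) -
    1 / 4 * (dv l j (fun x => v x ^ 2) x * cc s l j x + v x ^ 2 * dv l j (cc s l j) x)) := by
    funext x
    unfold QQ
    rw [Finset.sum_mul, Finset.sum_mul, Finset.mul_sum, ← Finset.sum_add_distrib,
      ← Finset.sum_add_distrib]
    refine Finset.sum_congr rfl (fun l _ => ?_)
    rw [mo hs]
    have hq := rh_q hs l x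
    simp only [dPP hs hv, dsq l _ hv, dcc hs, dc, mul_zero, Finset.sum_const_zero]
    simp only [Fin.sum_univ_three]
    unfold cc
    have hq2 : rh s l x ^ 5 * (x l 0 ^ 2 + x l 1 ^ 2 + x l 2 ^ 2) =
      rh s l x ^ 3 - rh s l x ^ 5 * s ^ 2 := by linear_combination rh s l x ^ 3 * hq
    have hq3 : rh s l x ^ 7 * (x l 0 ^ 2 + x l 1 ^ 2 + x l 2 ^ 2) =
      rh s l x ^ 5 - rh s l x ^ 7 * s ^ 2 := by linear_combination rh s l x ^ 5 * hq
    linear_combination (1 / 4 * 6 * v x ^ 2) * hq2 + (1 / 4 * 15 * s ^ 2 * v x ^ 2) * hq3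
  rw [e]
  exact h

theorem nr_sq (y : R3) : nr y ^ 2 = y 0 ^ 2 + y 1 ^ 2 + y 2 ^ 2 := by
  unfold nr
  exact Real.sq_sqrt (by positivity)

theorem nr_nn (y : R3) : 0 ≤ nr y := Real.sqrt_nonneg _

theorem nr_z {y : R3} (h : nr y = 0) : y = 0 := by
  have h1 := nr_sq y
  rw [h] at h1
  funext i
  have h0 : y 0 = 0 := by nlinarith [sq_nonneg (y 0), sq_nonneg (y 1), sq_nonneg (y 2)]
  have h2 : y 1 = 0 := by nlinarith [sq_nonneg (y 0), sq_nonneg (y 1), sq_nonneg (y 2)]
  have h3 : y 2 = 0 := by nlinarith [sq_nonneg (y 0), sq_nonneg (y 1), sq_nonneg (y 2)]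
  fin_cases i
  · exact h0
  · exact h2
  · exact h3

theorem ae1 {n : ℕ} (k : Fin n) : ∀ᵐ x : Cf n, nr (x k) ≠ 0 := by
  have h := Measure.addHaar_submodule (volume : Measure (Cf n))
    (LinearMap.ker (LinearMap.proj (R := ℝ) (φ := fun _ : Fin n => R3) k)) (by
      intro h
      have h1 : (fun _ _ => 1 : Cf n) ∈
        LinearMap.ker (LinearMap.proj (R := ℝ) (φ := fun _ : Fin n => R3) k) := by
        rw [h]; trivial
      rw [LinearMap.mem_ker] at h1
      have h2 := congrFun h1 0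
      simp at h2)
  rw [ae_iff]
  refine measure_mono_null (fun x hx => ?_) h
  simp only [Set.mem_ofPred_eq, not_not] at hx
  have := nr_z hx
  simpa [LinearMap.mem_ker] using this

theorem ae2 {n : ℕ} {k l : Fin n} (hkl : k ≠ l) : ∀ᵐ x : Cf n, nr (x k - x l) ≠ 0 := by
  have h := Measure.addHaar_submodule (volume : Measure (Cf n))
    (LinearMap.ker (LinearMap.proj (R := ℝ) (φ := fun _ : Fin n => R3) k -
      LinearMap.proj (R := ℝ) (φ := fun _ : Fin n => R3) l)) (by
      intro h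
      have h1 : (Pi.single k (fun _ => 1) : Cf n) ∈
        LinearMap.ker (LinearMap.proj (R := ℝ) (φ := fun _ : Fin n => R3) k -
          LinearMap.proj (R := ℝ) (φ := fun _ : Fin n => R3) l) := by
        rw [h]; trivial
      rw [LinearMap.mem_ker] at h1
      have h2 := congrFun h1 0
      simp [hkl.symm] at h2)
  rw [ae_iff]
  refine measure_mono_null (fun x hx => ?_) h
  simp only [Set.mem_ofPred_eq, not_not] at hx
  have := nr_z hx
  simpa [LinearMap.mem_ker] using this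

theorem em (m : ℕ) : (0 : ℝ) < 1 / ((m : ℝ) + 1) := by positivity

theorem tl {q : ℝ} (hq : 0 < q) :
    Tendsto (fun m : ℕ => (Real.sqrt (q + (1 / ((m : ℝ) + 1)) ^ 2))⁻¹) atTop
      (𝓝 ((Real.sqrt q)⁻¹)) := by
  have h1 : Tendsto (fun m : ℕ => q + (1 / ((m : ℝ) + 1)) ^ 2) atTop (𝓝 (q + 0 ^ 2)) :=
    tendsto_const_nhds.add (tendsto_one_div_add_atTop_nhds_zero_nat.pow 2)
  have h2 : q + 0 ^ 2 = q := by ring
  rw [h2] at h1
  exact (h1.sqrt).inv₀ (Real.sqrt_pos.2 hq).ne'

theorem mnr : Measurable nr := by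
  unfold nr
  fun_prop

theorem lim {n : ℕ} {G f : Cf n → ℝ} {Ge : ℕ → Cf n → ℝ} (hG : Integrable (fun x => G x * f x))
    (hm : ∀ m, AEStronglyMeasurable (fun x => Ge m x * f x))
    (hb : ∀ m, ∀ᵐ x, |Ge m x| ≤ |G x|)
    (hl : ∀ᵐ x, Tendsto (fun m => Ge m x) atTop (𝓝 (G x))) :
    Tendsto (fun m => ∫ x, Ge m x * f x) atTop (𝓝 (∫ x, G x * f x)) := by
  refine tendsto_integral_of_dominated_convergence (fun x => ‖G x * f x‖) hm hG.norm ?_ ?_
  · intro m
    filter_upwards [hb m] with x hx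
    rw [norm_mul, norm_mul]
    exact mul_le_mul_of_nonneg_right hx (norm_nonneg _)
  · filter_upwards [hl] with x hx
    exact hx.mul_const _

theorem ale (x : ℝ) {y : ℝ} (hy : 0 < y) (h : 0 ≤ x) : (Real.sqrt (y + x))⁻¹ ≤ (Real.sqrt y)⁻¹ := by
  gcongr
  linarith

/-- integrability of the single terms -/
theorem ia (int : ST_INT) {n : ℕ} {v w : Cf n → ℝ} (hv : ContDiff ℝ (⊤ : ℕ∞) v)
    (hc : HasCompactSupport v) (hw : ContDiff ℝ (⊤ : ℕ∞) w) (hd : HasCompactSupport w)
    (k : Fin n) : Integrable (fun x : Cf n => 1 / nr (x k) * (v x * w x)) := by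
  refine (int n v w hv hc hw hd).1.mono ?_ (ae_of_all _ fun x => ?_)
  · refine (Measurable.aestronglyMeasurable ?_).mul
      (hv.continuous.mul hw.continuous).aestronglyMeasurable
    exact measurable_const.div (mnr.comp (measurable_pi_apply k))
  · simp only [norm_mul]
    refine mul_le_mul_of_nonneg_right ?_ (by positivity)
    have h0 : ∀ l ∈ Finset.univ, 0 ≤ 1 / nr (x l) := fun l _ => by
      have := nr_nn (x l); positivity
    have h1 : 1 / nr (x k) ≤ att x := by
      unfold att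
      exact Finset.single_le_sum (f := fun l => 1 / nr (x l)) h0 (Finset.mem_univ k)
    have h2 := h0 k (Finset.mem_univ k)
    rw [Real.norm_of_nonneg h2, Real.norm_of_nonneg (h2.trans h1)]
    exact h1

theorem ir (int : ST_INT) {n : ℕ} {v w : Cf n → ℝ} (hv : ContDiff ℝ (⊤ : ℕ∞) v)
    (hc : HasCompactSupport v) (hw : ContDiff ℝ (⊤ : ℕ∞) w) (hd : HasCompactSupport w)
    {k l : Fin n} (hkl : k < l) :
    Integrable (fun x : Cf n => 1 / nr (x k - x l) * (v x * w x)) := by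
  refine (int n v w hv hc hw hd).2.1.mono ?_ (ae_of_all _ fun x => ?_)
  · refine (Measurable.aestronglyMeasurable ?_).mul
      (hv.continuous.mul hw.continuous).aestronglyMeasurable
    exact measurable_const.div (mnr.comp ((measurable_pi_apply k).sub (measurable_pi_apply l)))
  · simp only [norm_mul]
    refine mul_le_mul_of_nonneg_right ?_ (by positivity)
    have h0 : ∀ a b : Fin n, 0 ≤ (if a < b then 1 / nr (x a - x b) else 0) := fun a b => by
      have := nr_nn (x a - x b)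
      split_ifs
      · positivity
      · exact le_refl 0
    have h1 : 1 / nr (x k - x l) ≤ rep x := by
      unfold rep
      have e1 := Finset.single_le_sum (f := fun b => if k < b then 1 / nr (x k - x b) else 0)
        (fun b _ => h0 k b) (Finset.mem_univ l)
      have e2 := Finset.single_le_sum
        (f := fun a => ∑ b, if a < b then 1 / nr (x a - x b) else 0)
        (fun a _ => Finset.sum_nonneg (fun b _ => h0 a b)) (Finset.mem_univ k)
      simp only [hkl, if_true] at e1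
      exact e1.trans e2
    have h2 : 0 ≤ 1 / nr (x k - x l) := by
      have := nr_nn (x k - x l); positivity
    rw [Real.norm_of_nonneg h2, Real.norm_of_nonneg (h2.trans h1)]
    exact h1

theorem rh_le {n : ℕ} {s : ℝ} (k : Fin n) (x : Cf n) (h : nr (x k) ≠ 0) :
    rh s k x ≤ 1 / nr (x k) := by
  unfold rh
  have hp : 0 < nr (x k) := lt_of_le_of_ne (nr_nn _) (Ne.symm h)
  have h1 : 0 < x k 0 ^ 2 + x k 1 ^ 2 + x k 2 ^ 2 := by rw [← nr_sq]; positivity
  have h2 := ale (s ^ 2) h1 (sq_nonneg s)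
  rw [one_div]
  exact h2

theorem rp_le {n : ℕ} {s : ℝ} (k l : Fin n) (x : Cf n) (h : nr (x k - x l) ≠ 0) :
    rp s k l x ≤ 1 / nr (x k - x l) := by
  unfold rp
  have hp : 0 < nr (x k - x l) := lt_of_le_of_ne (nr_nn _) (Ne.symm h)
  have h1 : 0 < (x k 0 - x l 0) ^ 2 + (x k 1 - x l 1) ^ 2 + (x k 2 - x l 2) ^ 2 := by
    have := nr_sq (x k - x l)
    simp only [Pi.sub_apply] at this
    rw [← this]; positivity
  have h2 := ale (s ^ 2) h1 (sq_nonneg s)
  rw [one_div]
  exact h2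

/-- repulsion -/
theorem RP (ibp : ST_IBP) (int : ST_INT) {n : ℕ} {s : ℝ} (hs : 0 < s) {v : Cf n → ℝ}
    (hv : ContDiff ℝ (⊤ : ℕ∞) v) (hc : HasCompactSupport v) {k l : Fin n} (hkl : k < l) :
    0 ≤ ∫ x, 1 / nr (x k - x l) * (v x * PP s v x) := by
  have hne : k ≠ l := hkl.ne
  have hP := PP_c hs hv
  have hQ := PP_s (s := s) hc
  refine ge_of_tendsto' (lim (Ge := fun m => rp (1 / ((m : ℝ) + 1)) k l)
    (ir int hv hc hP hQ hkl) ?_ ?_ ?_) ?_
  · intro m
    exact ((rp_c (em m) k l).continuous.mul (hv.continuous.mul hP.continuous)).aestronglyMeasurable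
  · intro m
    filter_upwards [ae2 hne] with x hx
    have h1 := rp_p (em m) k l x
    have h2 := rp_le (s := 1 / ((m : ℝ) + 1)) k l x hx
    rw [abs_of_pos h1, abs_of_pos (h1.trans_le h2)]
    exact h2
  · filter_upwards [ae2 hne] with x hx
    have hp : 0 < nr (x k - x l) := lt_of_le_of_ne (nr_nn _) (Ne.symm hx)
    have h1 : 0 < (x k 0 - x l 0) ^ 2 + (x k 1 - x l 1) ^ 2 + (x k 2 - x l 2) ^ 2 := by
      have := nr_sq (x k - x l)
      simp only [Pi.sub_apply] at this
      rw [← this]; positivity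
    have h2 := tl h1
    rw [one_div]
    exact h2
  · intro m
    have he := em m
    generalize 1 / ((m : ℝ) + 1) = e at he ⊢
    have h := L1 ibp hs hv hc (rp_c he k l)
    have i1 : Integrable (fun x => rp e k l x * (v x * PP s v x)) :=
      icc ((rp_c he k l).mul (hv.mul hP)) (hc.mul_right.mul_left)
    have h2 : ∫ x, (2 * (rp e k l x * (v x * PP s v x)) +
        v x ^ 2 * ∑ m, ∑ i, aa s m i x * dv m i (rp e k l) x) ≤
        ∫ x, 2 * (rp e k l x * (v x * PP s v x)) := by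
      refine integral_mono h.1 (i1.const_mul 2) (fun x => ?_)
      have e1 : ∑ m, ∑ i, aa s m i x * dv m i (rp e k l) x =
          -(rp e k l x ^ 3 * ∑ i, (x k i - x l i) * (aa s k i x - aa s l i x)) := by
        have e2 : ∀ m, ∑ i, aa s m i x * dv m i (rp e k l) x =
            (if m = k then -(rp e k l x ^ 3 * ∑ i, (x k i - x l i) * aa s k i x) else 0) +
            (if m = l then rp e k l x ^ 3 * ∑ i, (x k i - x l i) * aa s l i x else 0) := by
          intro m
          simp only [drp he, Fin.sum_univ_three]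
          by_cases hk : m = k
          · subst hk
            simp [hne]
            ring
          · by_cases hl : m = l
            · subst hl
              simp [hk]
              ring
            · simp [hk, hl]
        rw [Finset.sum_congr rfl (fun m _ => e2 m), Finset.sum_add_distrib]
        simp only [Finset.sum_ite_eq', Finset.mem_univ, if_true, Fin.sum_univ_three]
        ring
      have e3 : 0 ≤ ∑ i, (x k i - x l i) * (aa s k i x - aa s l i x) := by
        unfold aa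
        simp only [Fin.sum_univ_three]
        have q1 := rh_q hs k x
        have q2 := rh_q hs l x
        have p1 := rh_p hs k x
        have p2 := rh_p hs l x
        generalize rh s k x = a at *
        generalize rh s l x = b at *
        generalize x k 0 = x0 at *
        generalize x k 1 = x1 at *
        generalize x k 2 = x2 at *
        generalize x l 0 = y0 at *
        generalize x l 1 = y1 at *
        generalize x l 2 = y2 at *
        -- a b (x . y + s^2) <= 1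
        have hcs : a * b * (x0 * y0 + x1 * y1 + x2 * y2 + s ^ 2) ≤ 1 := by
          have k1 : 0 ≤ (a * x0 - b * y0) ^ 2 + (a * x1 - b * y1) ^ 2 + (a * x2 - b * y2) ^ 2 +
            (a * s - b * s) ^ 2 := by positivity
          nlinarith
        have fe : (x0 - y0) * (x0 * a - y0 * b) + (x1 - y1) * (x1 * a - y1 * b) +
            (x2 - y2) * (x2 * a - y2 * b) =
            (a + b) / (a * b) * (1 - a * b * (x0 * y0 + x1 * y1 + x2 * y2 + s ^ 2)) := by
          field_simp
          linear_combination b * q1 + a * q2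
        rw [fe]
        have : 0 ≤ 1 - a * b * (x0 * y0 + x1 * y1 + x2 * y2 + s ^ 2) := by linarith
        positivity
      simp only []
      rw [e1]
      have e4 : 0 ≤ v x ^ 2 * (rp e k l x ^ 3 *
          ∑ i, (x k i - x l i) * (aa s k i x - aa s l i x)) :=
        mul_nonneg (sq_nonneg _) (mul_nonneg (pow_nonneg (rp_p he k l x).le 3) e3)
      linarith
    rw [h.2, integral_const_mul] at h2
    linarith

/-- attraction -/
theorem AT (ibp : ST_IBP) (ha : ST_HA1) (int : ST_INT) {n : ℕ} {s : ℝ} (hs : 0 < s)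
    {v : Cf n → ℝ} (hv : ContDiff ℝ (⊤ : ℕ∞) v) (hc : HasCompactSupport v) (k : Fin n) :
    ∫ x, 1 / nr (x k) * (v x * PP s v x) ≤ 2 * ∫ x, ∑ i, dv k i v x ^ 2 := by
  have hP := PP_c hs hv
  have hQ := PP_s (s := s) hc
  refine le_of_tendsto' (lim (Ge := fun m => rh (1 / ((m : ℝ) + 1)) k)
    (ia int hv hc hP hQ k) ?_ ?_ ?_) ?_
  · intro m
    exact ((rh_c (em m) k).continuous.mul (hv.continuous.mul hP.continuous)).aestronglyMeasurable
  · intro m
    filter_upwards [ae1 k] with x hx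
    have h1 := rh_p (em m) k x
    have h2 := rh_le (s := 1 / ((m : ℝ) + 1)) k x hx
    rw [abs_of_pos h1, abs_of_pos (h1.trans_le h2)]
    exact h2
  · filter_upwards [ae1 k] with x hx
    have hp : 0 < nr (x k) := lt_of_le_of_ne (nr_nn _) (Ne.symm hx)
    have h1 : 0 < x k 0 ^ 2 + x k 1 ^ 2 + x k 2 ^ 2 := by rw [← nr_sq]; positivity
    have h2 := tl h1
    rw [one_div]
    exact h2
  · intro m
    have he := em m
    generalize 1 / ((m : ℝ) + 1) = e at he ⊢
    have h := L1 ibp hs hv hc (rh_c he k)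
    have i1 : Integrable (fun x => rh e k x * (v x * PP s v x)) :=
      icc ((rh_c he k).mul (hv.mul hP)) (hc.mul_right.mul_left)
    have hh := ha n k v hv hc
    have h2 : ∫ x, 2 * (rh e k x * (v x * PP s v x)) ≤ ∫ x, ((2 * (rh e k x * (v x * PP s v x)) +
        v x ^ 2 * ∑ m, ∑ i, aa s m i x * dv m i (rh e k) x) + v x ^ 2 / nr (x k) ^ 2) := by
      refine integral_mono_ae (i1.const_mul 2) (h.1.add hh.1) ?_
      filter_upwards [ae1 k] with x hx
      have e1 : ∑ m, ∑ i, aa s m i x * dv m i (rh e k) x =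
          -(rh s k x * rh e k x ^ 3 * nr (x k) ^ 2) := by
        rw [Finset.sum_eq_single k]
        · simp only [drh he, Fin.sum_univ_three, if_true]
          rw [nr_sq]
          unfold aa
          ring
        · intro b _ hb
          simp [drh he, hb]
        · intro h; exact absurd (Finset.mem_univ k) h
      have hp : 0 < nr (x k) := lt_of_le_of_ne (nr_nn _) (Ne.symm hx)
      have k1 := rh_le (s := s) k x hx
      have k2 := rh_le (s := e) k x hx
      have k3 := rh_p hs k x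
      have k4 := rh_p he k x
      have k5 : rh s k x * rh e k x ^ 3 * nr (x k) ^ 2 ≤ 1 / nr (x k) ^ 2 := by
        have k6 : rh s k x * rh e k x ^ 3 ≤ (1 / nr (x k)) * (1 / nr (x k)) ^ 3 := by
          gcongr
        calc rh s k x * rh e k x ^ 3 * nr (x k) ^ 2 ≤
            (1 / nr (x k)) * (1 / nr (x k)) ^ 3 * nr (x k) ^ 2 := by gcongr
          _ = 1 / nr (x k) ^ 2 := by field_simp
      rw [e1]
      have k7 : v x ^ 2 * (rh s k x * rh e k x ^ 3 * nr (x k) ^ 2) ≤ v x ^ 2 / nr (x k) ^ 2 := by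
        calc v x ^ 2 * (rh s k x * rh e k x ^ 3 * nr (x k) ^ 2) ≤
            v x ^ 2 * (1 / nr (x k) ^ 2) := by gcongr
          _ = v x ^ 2 / nr (x k) ^ 2 := by ring
      linarith
    rw [integral_add h.1 hh.1, h.2, integral_const_mul] at h2
    linarith [hh.2]

/-- kinetic energy of a single function -/
noncomputable def K1 {n : ℕ} (v : Cf n → ℝ) : ℝ := ∑ k, ∫ x, ∑ i, dv k i v x ^ 2

theorem dvi {n : ℕ} {v : Cf n → ℝ} (hv : ContDiff ℝ (⊤ : ℕ∞) v) (hc : HasCompactSupport v)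
    (k : Fin n) (i : Fin 3) : Integrable (fun x => dv k i v x ^ 2) := by
  refine icc ((csd k i hv).pow 2) (HasCompactSupport.intro hc (fun x hx => ?_))
  have h2 : fderiv ℝ v x = 0 := fderiv_of_notMem_tsupport ℝ hx
  unfold dv
  simp [h2]

theorem dvs {n : ℕ} {v : Cf n → ℝ} (hv : ContDiff ℝ (⊤ : ℕ∞) v) (hc : HasCompactSupport v)
    (k : Fin n) : Integrable (fun x => ∑ i, dv k i v x ^ 2) :=
  integrable_finsetSum _ (fun i _ => dvi hv hc k i)

theorem PN (ha : ST_HA1) {n : ℕ} {s : ℝ} (hs : 0 < s)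
    {v : Cf n → ℝ} (hv : ContDiff ℝ (⊤ : ℕ∞) v) (hc : HasCompactSupport v) :
    ∫ x, PP s v x ^ 2 ≤ 16 * n * K1 v := by
  have hP := PP_c hs hv
  have hQ := PP_s (s := s) hc
  have i1 : Integrable (fun x => PP s v x ^ 2) := by
    have : (fun x => PP s v x ^ 2) = fun x => PP s v x * PP s v x := by funext x; ring
    rw [this]
    exact icc (hP.mul hP) hQ.mul_right
  have i2 : ∀ k : Fin n, Integrable (fun x => 4 * (∑ i, dv k i v x ^ 2) +
      3 * (v x ^ 2 / nr (x k) ^ 2)) :=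
    fun k => ((dvs hv hc k).const_mul 4).add ((ha n k v hv hc).1.const_mul 3)
  have h1 : ∫ x, PP s v x ^ 2 ≤ ∫ x, (n : ℝ) * ∑ k, (4 * (∑ i, dv k i v x ^ 2) +
      3 * (v x ^ 2 / nr (x k) ^ 2)) := by
    refine integral_mono_ae i1 ((integrable_finsetSum _ (fun k _ => i2 k)).const_mul _) ?_
    filter_upwards [ae_all_iff.2 (fun k : Fin n => ae1 k)] with x hx
    have c1 := sq_sum_le_card_mul_sum_sq (s := (Finset.univ : Finset (Fin n)))
      (f := fun k => ((∑ i, aa s k i x * dv k i v x) + bb s k x / 2 * v x))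
    rw [Finset.card_univ, Fintype.card_fin] at c1
    refine c1.trans (mul_le_mul_of_nonneg_left (Finset.sum_le_sum (fun k _ => ?_))
      (Nat.cast_nonneg n))
    have hp : 0 < nr (x k) := lt_of_le_of_ne (nr_nn _) (Ne.symm (hx k))
    have k1 := rh_le (s := s) k x (hx k)
    have k3 := rh_p hs k x
    have hq := rh_q hs k x
    have b1 : s ^ 2 * rh s k x ^ 2 ≤ 1 := by
      nlinarith [sq_nonneg (rh s k x * x k 0),
        sq_nonneg (rh s k x * x k 1), sq_nonneg (rh s k x * x k 2)]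
    have b2 : bb s k x ≤ 3 * rh s k x := by
      unfold bb
      nlinarith
    have b0 : 0 ≤ bb s k x := by unfold bb; positivity
    have b3 : bb s k x ≤ 3 * (1 / nr (x k)) := by linarith
    have b4 : (bb s k x / 2 * v x) ^ 2 ≤ 9 / 4 * (v x ^ 2 / nr (x k) ^ 2) := by
      have : bb s k x ^ 2 ≤ (3 * (1 / nr (x k))) ^ 2 := by gcongr
      calc (bb s k x / 2 * v x) ^ 2 = bb s k x ^ 2 / 4 * v x ^ 2 := by ring
        _ ≤ (3 * (1 / nr (x k))) ^ 2 / 4 * v x ^ 2 := by gcongr
        _ = 9 / 4 * (v x ^ 2 / nr (x k) ^ 2) := by field_simp; ring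
    have a1 : (∑ i, aa s k i x * dv k i v x) ^ 2 ≤ ∑ i, dv k i v x ^ 2 := by
      unfold aa
      simp only [Fin.sum_univ_three]
      have e : (x k 0 * rh s k x * dv k 0 v x + x k 1 * rh s k x * dv k 1 v x +
          x k 2 * rh s k x * dv k 2 v x) ^ 2 = (dv k 0 v x ^ 2 + dv k 1 v x ^ 2 + dv k 2 v x ^ 2) -
          rh s k x ^ 2 * (s ^ 2 * (dv k 0 v x ^ 2 + dv k 1 v x ^ 2 + dv k 2 v x ^ 2) +
        (x k 0 * dv k 1 v x - x k 1 * dv k 0 v x) ^ 2 +
        (x k 0 * dv k 2 v x - x k 2 * dv k 0 v x) ^ 2 +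
        (x k 1 * dv k 2 v x - x k 2 * dv k 1 v x) ^ 2) := by
        linear_combination (dv k 0 v x ^ 2 + dv k 1 v x ^ 2 + dv k 2 v x ^ 2) * hq
      rw [e]
      have : 0 ≤ rh s k x ^ 2 * (s ^ 2 * (dv k 0 v x ^ 2 + dv k 1 v x ^ 2 + dv k 2 v x ^ 2) +
        (x k 0 * dv k 1 v x - x k 1 * dv k 0 v x) ^ 2 +
        (x k 0 * dv k 2 v x - x k 2 * dv k 0 v x) ^ 2 +
        (x k 1 * dv k 2 v x - x k 2 * dv k 1 v x) ^ 2) := by positivity
      linarith
    generalize (∑ i, aa s k i x * dv k i v x) = A at *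
    generalize (bb s k x / 2 * v x) = B at *
    show (A + B) ^ 2 ≤ _
    nlinarith [sq_nonneg (3 * A - B)]
  refine h1.trans ?_
  rw [integral_const_mul, integral_finsetSum _ (fun k _ => i2 k)]
  have h2 : ∑ k, ∫ x, (4 * (∑ i, dv k i v x ^ 2) + 3 * (v x ^ 2 / nr (x k) ^ 2)) ≤
      16 * K1 v := by
    unfold K1
    rw [Finset.mul_sum]
    refine Finset.sum_le_sum (fun k _ => ?_)
    rw [integral_add ((dvs hv hc k).const_mul 4) ((ha n k v hv hc).1.const_mul 3),
      integral_const_mul, integral_const_mul]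
    linarith [(ha n k v hv hc).2]
  calc (n : ℝ) * _ ≤ n * (16 * K1 v) := by gcongr
    _ = 16 * n * K1 v := by ring

theorem m_att {n : ℕ} : Measurable (att (n := n)) := by
  unfold att
  refine Finset.measurable_sum _ (fun k _ => ?_)
  exact measurable_const.div (mnr.comp (measurable_pi_apply k))

theorem m_rep {n : ℕ} : Measurable (rep (n := n)) := by
  unfold rep
  refine Finset.measurable_sum _ (fun k _ => Finset.measurable_sum _ (fun l _ => ?_))
  split_ifs
  · exact measurable_const.div (mnr.comp ((measurable_pi_apply k).sub (measurable_pi_apply l)))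
  · exact measurable_const

theorem hmL (int : ST_INT) {n : ℕ} (Z E : ℝ) {v : Cf n → ℝ} (hv : ContDiff ℝ (⊤ : ℕ∞) v)
    (hc : HasCompactSupport v) : MemLp (fun x => hm Z v x - E * v x) 2 := by
  have hI := int n v v hv hc hv hc
  have hvm : Measurable v := hv.continuous.measurable
  have m1 : MemLp (fun x => att x * v x) 2 :=
    (memLp_two_iff_integrable_sq (m_att.mul hvm).aestronglyMeasurable).2 hI.2.2.1
  have m2 : MemLp (fun x => rep x * v x) 2 :=
    (memLp_two_iff_integrable_sq (m_rep.mul hvm).aestronglyMeasurable).2 hI.2.2.2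
  have m3 : MemLp (fun x => -(∑ k, ∑ i, dv k i (dv k i v) x) - E * v x) 2 := by
    refine Continuous.memLp_of_hasCompactSupport ?_ ?_
    · refine Continuous.sub (Continuous.neg ?_) (continuous_const.mul hv.continuous)
      exact continuous_finsetSum _ (fun k _ => continuous_finsetSum _
        (fun i _ => (csd k i (csd k i hv)).continuous))
    · refine HasCompactSupport.intro hc (fun x hx => ?_)
      have h1 : v x = 0 := image_eq_zero_of_notMem_tsupport hx
      have h2 : ∀ k i, dv k i (dv k i v) x = 0 := by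
        intro k i
        have h3 : x ∉ tsupport (dv k i v) := by
          intro h4
          refine hx (closure_minimal ?_ (isClosed_tsupport v) h4)
          intro y hy
          by_contra h5
          refine hy ?_
          unfold dv
          rw [fderiv_of_notMem_tsupport ℝ h5]
          simp
        have h6 : fderiv ℝ (dv k i v) x = 0 := fderiv_of_notMem_tsupport ℝ h3
        show fderiv ℝ (dv k i v) x _ = 0
        rw [h6]
        simp
      simp [h1, h2]
  have m4 := (m3.add m2).sub (m1.const_mul Z)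
  have e : (fun x => hm Z v x - E * v x) =
      ((fun x => -(∑ k, ∑ i, dv k i (dv k i v) x) - E * v x) + fun x => rep x * v x) -
        fun x => Z * (att x * v x) := by
    funext x
    simp only [Pi.sub_apply, Pi.add_apply]
    unfold hm
    ring
  rw [e]
  exact m4

theorem l4 {n : ℕ} {f g h p : Cf n → ℝ} (hf : Integrable f) (hg : Integrable g)
    (hh : Integrable h) (hp : Integrable p) (Z E : ℝ) :
    ∫ x, (-(f x) + g x - Z * h x - E * p x) =
      -(∫ x, f x) + (∫ x, g x) - Z * (∫ x, h x) - E * ∫ x, p x := by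
  have h1 : Integrable (fun x => -(f x)) := hf.neg
  have h2 : Integrable (fun x => -(f x) + g x) := h1.add hg
  have h3 : Integrable (fun x => -(f x) + g x - Z * h x) := h2.sub (hh.const_mul Z)
  rw [integral_sub h3 (hp.const_mul E), integral_sub h2 (hh.const_mul Z), integral_add h1 hg,
    integral_neg, integral_const_mul, integral_const_mul]

theorem l3 {n : ℕ} {f g h : Cf n → ℝ} (hf : Integrable f) (hg : Integrable g)
    (hh : Integrable h) (a b : ℝ) :
    ∫ x, (a * f x + b * g x + h x) = a * (∫ x, f x) + b * (∫ x, g x) + ∫ x, h x := by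
  have h2 : Integrable (fun x => a * f x + b * g x) := (hf.const_mul a).add (hg.const_mul b)
  rw [integral_add h2 hh, integral_add (hf.const_mul a) (hg.const_mul b), integral_const_mul,
    integral_const_mul]

/-- the inequality for a single function -/
theorem MV (ibp : ST_IBP) (ha : ST_HA1) (int : ST_INT) {n : ℕ} {Z E s : ℝ} (hZ : 0 ≤ Z)
    (hs : 0 < s) {v : Cf n → ℝ} (hv : ContDiff ℝ (⊤ : ℕ∞) v) (hc : HasCompactSupport v) :
    ∫ x, (∑ k, mor s (x k)) * v x ^ 2 ≤
      2 * (∫ x, (hm Z v x - E * v x) * PP s v x) + 4 * Z * K1 v := by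
  have hP := PP_c hs hv
  have hQ := PP_s (s := s) hc
  have hI := int n v (PP s v) hv hc hP hQ
  have a0 := KN ibp hs hv hc
  have a1 := L1 ibp hs hv hc (contDiff_const (c := (1 : ℝ)))
  have b1 : ∫ x, v x * PP s v x = 0 := by
    have h := a1.2
    simp only [dc, mul_zero, Finset.sum_const_zero, add_zero, one_mul] at h
    rw [integral_const_mul] at h
    linarith
  have iv : Integrable (fun x => v x * PP s v x) := icc (hv.mul hP) hc.mul_right
  have iA : Integrable (fun x => (∑ l, ∑ j, dv l j (dv l j v) x) * PP s v x) := by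
    refine icc (ContDiff.mul ?_ hP) hQ.mul_left
    exact ContDiff.sum (fun k _ => ContDiff.sum (fun i _ => csd k i (csd k i hv)))
  have iM : Integrable (fun x => (∑ k, mor s (x k)) * v x ^ 2) := by
    simp only [mo hs]
    refine icc (ContDiff.mul (ContDiff.sum (fun k _ => contDiff_const.mul ((rh_c hs k).pow 7)))
      (hv.pow 2)) (HasCompactSupport.intro hc (fun x hx => ?_))
    have h1 : v x = 0 := image_eq_zero_of_notMem_tsupport hx
    simp [h1]
  have b2 : (∫ x, (∑ l, ∑ j, dv l j (dv l j v) x) * PP s v x) +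
      1 / 2 * ∫ x, (∑ k, mor s (x k)) * v x ^ 2 ≤ 0 := by
    have h : ∫ x, ((∑ l, ∑ j, dv l j (dv l j v) x) * PP s v x +
        1 / 2 * ((∑ k, mor s (x k)) * v x ^ 2)) ≤
        ∫ x, ((∑ l, ∑ j, dv l j (dv l j v) x) * PP s v x + QQ s v x +
      1 / 2 * ((∑ k, mor s (x k)) * v x ^ 2)) := by
      refine integral_mono (iA.add (iM.const_mul _)) a0.1 (fun x => ?_)
      have := QQ_p hs v x
      simp only []
      linarith
    rw [a0.2, integral_add iA (iM.const_mul _), integral_const_mul] at h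
    exact h
  have b3 : 0 ≤ ∫ x, rep x * (v x * PP s v x) := by
    have e : (fun x => rep x * (v x * PP s v x)) = fun x => ∑ k, ∑ l, if k < l then
        1 / nr (x k - x l) * (v x * PP s v x) else 0 := by
      funext x
      unfold rep
      simp only [Finset.sum_mul, ite_mul, zero_mul]
    have i1 : ∀ k l : Fin n, Integrable (fun x : Cf n => if k < l then
        1 / nr (x k - x l) * (v x * PP s v x) else 0) := by
      intro k l
      split_ifs with h
      · exact ir int hv hc hP hQ h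
      · exact integrable_zero _ _ _
    rw [e, integral_finsetSum _ (fun k _ => integrable_finsetSum _ (fun l _ => i1 k l))]
    refine Finset.sum_nonneg (fun k _ => ?_)
    rw [integral_finsetSum _ (fun l _ => i1 k l)]
    refine Finset.sum_nonneg (fun l _ => ?_)
    split_ifs with h
    · exact RP ibp int hs hv hc h
    · simp
  have b4 : ∫ x, att x * (v x * PP s v x) ≤ 2 * K1 v := by
    have e : (fun x => att x * (v x * PP s v x)) = fun x => ∑ k,
        1 / nr (x k) * (v x * PP s v x) := by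
      funext x
      unfold att
      rw [Finset.sum_mul]
    unfold K1
    rw [e, integral_finsetSum _ (fun k _ => ia int hv hc hP hQ k), Finset.mul_sum]
    exact Finset.sum_le_sum (fun k _ => AT ibp ha int hs hv hc k)
  have b5 : ∫ x, (hm Z v x - E * v x) * PP s v x =
      -(∫ x, (∑ l, ∑ j, dv l j (dv l j v) x) * PP s v x) + (∫ x, rep x * (v x * PP s v x)) -
        Z * (∫ x, att x * (v x * PP s v x)) - E * ∫ x, v x * PP s v x := by
    rw [← l4 iA hI.2.1 hI.1 iv Z E]
    refine integral_congr_ae (ae_of_all _ fun x => ?_)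
    simp only []
    unfold hm
    ring
  rw [b5, b1]
  have b6 := mul_le_mul_of_nonneg_left b4 hZ
  nlinarith

/-- the Morawetz inequality -/
theorem mor_all (ibp : ST_IBP) (ha : ST_HA1) (int : ST_INT) : ST_MOR := by
  intro n Z E s u hZ hs hu
  have hk : kin u = ∑ t, K1 (u t) := by
    unfold kin K1 Pool.Agent.Helper95.PW.sq
    have e : ∀ t (k : Fin n), ∫ x, ∑ i, dv k i (u t) x ^ 2 = ∑ i, ∫ x, dv k i (u t) x ^ 2 :=
      fun t k => integral_finsetSum _ (fun i _ => dvi (hu t).1 (hu t).2 k i)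
    simp only [e]
    rw [Finset.sum_comm (s := (Finset.univ : Finset (Fin n → Fin 2)))]
    exact Finset.sum_congr rfl (fun k _ => Finset.sum_comm)
  have h1 : one (mor s) u ≤ 2 * (∑ t, ∫ x, (hm Z (u t) x - E * u t x) * PP s (u t) x) +
      4 * Z * kin u := by
    rw [hk, Finset.mul_sum, Finset.mul_sum, ← Finset.sum_add_distrib]
    exact Finset.sum_le_sum (fun t _ => MV ibp ha int hZ hs (hu t).1 (hu t).2)
  have hC : ∑ t, ∫ x, PP s (u t) x ^ 2 ≤ 16 * n * kin u := by
    rw [hk, Finset.mul_sum]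
    exact Finset.sum_le_sum (fun t _ => PN ha hs (hu t).1 (hu t).2)
  have hA : ∑ t, ∫ x, (hm Z (u t) x - E * u t x) ^ 2 = res Z E u := rfl
  have hM : ∀ t, MemLp (fun x => hm Z (u t) x - E * u t x) 2 :=
    fun t => hmL int Z E (hu t).1 (hu t).2
  have hN : ∀ t, MemLp (PP s (u t)) 2 := fun t =>
    (PP_c hs (hu t).1).continuous.memLp_of_hasCompactSupport (PP_s (hu t).2)
  have hB : (∑ t, ∫ x, (hm Z (u t) x - E * u t x) * PP s (u t) x) ^ 2 ≤
      res Z E u * ∑ t, ∫ x, PP s (u t) x ^ 2 := by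
    have hd : ∀ y : ℝ, 0 ≤ res Z E u * (y * y) +
        (-2 * ∑ t, ∫ x, (hm Z (u t) x - E * u t x) * PP s (u t) x) * y +
        ∑ t, ∫ x, PP s (u t) x ^ 2 := by
      intro y
      have e : ∀ t, ∫ x, (y * (hm Z (u t) x - E * u t x) - PP s (u t) x) ^ 2 =
          (y * y) * (∫ x, (hm Z (u t) x - E * u t x) ^ 2) +
          (-2 * y) * (∫ x, (hm Z (u t) x - E * u t x) * PP s (u t) x) +
          ∫ x, PP s (u t) x ^ 2 := by
        intro t
        have j1 : Integrable (fun x => (hm Z (u t) x - E * u t x) ^ 2) := (hM t).integrable_sq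
        have j2 : Integrable (fun x => (hm Z (u t) x - E * u t x) * PP s (u t) x) :=
          (hM t).integrable_mul (hN t)
        have j3 : Integrable (fun x => PP s (u t) x ^ 2) := (hN t).integrable_sq
        rw [← l3 j1 j2 j3]
        refine integral_congr_ae (ae_of_all _ fun x => ?_)
        simp only []
        ring
      have h : 0 ≤ ∑ t, ∫ x, (y * (hm Z (u t) x - E * u t x) - PP s (u t) x) ^ 2 :=
        Finset.sum_nonneg (fun t _ => integral_nonneg (fun x => sq_nonneg _))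
      rw [Finset.sum_congr rfl (fun t _ => e t), Finset.sum_add_distrib, Finset.sum_add_distrib,
        ← Finset.mul_sum, ← Finset.mul_sum, hA] at h
      linarith
    have := discrim_le_zero hd
    unfold discrim at this
    nlinarith
  have hr : 0 ≤ res Z E u := by
    rw [← hA]
    exact Finset.sum_nonneg (fun t _ => integral_nonneg (fun x => sq_nonneg _))
  have hF : (∑ t, ∫ x, (hm Z (u t) x - E * u t x) * PP s (u t) x) ≤
      4 * Real.sqrt (n * kin u * res Z E u) := by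
    have h2 : (∑ t, ∫ x, (hm Z (u t) x - E * u t x) * PP s (u t) x) ^ 2 ≤
        4 ^ 2 * (n * kin u * res Z E u) := by
      refine hB.trans ?_
      have := mul_le_mul_of_nonneg_left hC hr
      linarith
    have h3 := Real.abs_le_sqrt h2
    rw [Real.sqrt_mul (by norm_num), Real.sqrt_sq (by norm_num)] at h3
    exact (le_abs_self _).trans h3
  linarith

end Pool.Agent.Helper31.PWMOR

namespace Pool.Agent.Helper95.PW

/-- the Morawetz inequality -/
theorem st_MOR (h1 : ST_IBP) (h2 : ST_HA1) (h3 : ST_INT) (_h4 : ST_QH) : ST_MOR :=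
  Pool.Agent.Helper31.PWMOR.mor_all h1 h2 h3

end Pool.Agent.Helper95.PW
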